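import Pool.Agent.H80.Gs7

set_option autoImplicit false

open MeasureTheory ProbabilityTheory Pool.Agent.H80.GsD
open scoped Pointwise

theorem Pool.Agent.Results.MP_ff773e_gt.Yes.result :
    ∃ f : ℝ → ℝ, AntitoneOn f (Set.Ioo 0 1) ∧ (∀ p ∈ Set.Ioo (0 : ℝ) 1, 0 < f p) ∧
      ∀ (n : ℕ), 1 ≤ n → ∀ V : Set (EuclideanSpace ℝ (Fin n)), IsCompact V → Convex ℝ V →
        (interior V).Nonempty →
        ⨅ x : {x : EuclideanSpace ℝ (Fin n) // 0 ∈ interior (V + {x})}, beta (V + {x.1}) ≤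
          ⨅ y : EuclideanSpace ℝ (Fin n),
            ((f ((stdGaussian (EuclideanSpace ℝ (Fin n))).real (V + {y})) : ℝ) : EReal) := by
  obtain ⟨f, h1, h2, h3⟩ := Pool.Agent.H80.Gs.main3
  refine ⟨f, h1, h2, fun n _ V hV hc hi => le_iInf fun y => ?_⟩
  obtain ⟨x, hx, h⟩ := h3 n V hV hc hi y
  exact iInf_le_of_le ⟨x, hx⟩ h
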